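import Pool.Agent.helper12.PFS.Spec

/-! # Row pfs:SM2: three small statements -/

set_option autoImplicit false

namespace Pool.Agent.PFS

theorem NSC : NSC_stmt := by
  intro p _ hp
  classical
  have hodd : ringChar (ZMod p) ≠ 2 := by
    rw [ZMod.ringChar_zmod_n]
    exact hp
  have h0 := quadraticChar_sum_zero (F := ZMod p) hodd
  have h1 : ∀ a : ZMod p, (if ¬ IsSquare a then (2 : ℤ) else 0) =
      (if a = 0 then 0 else 1) - quadraticChar (ZMod p) a := by
    intro a
    rcases eq_or_ne a 0 with rfl | ha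
    · simp
    · by_cases hs : IsSquare a
      · rw [(quadraticChar_one_iff_isSquare ha).2 hs, if_neg (not_not.2 hs), if_neg ha]
        norm_num
      · rw [quadraticChar_neg_one_iff_not_isSquare.2 hs, if_pos hs, if_neg ha]
        norm_num
  have h2 : ∑ a : ZMod p, (if ¬ IsSquare a then (2 : ℤ) else 0) = (p : ℤ) - 1 := by
    rw [Finset.sum_congr rfl fun a _ => h1 a, Finset.sum_sub_distrib, h0, sub_zero]
    have h3 : ∀ a : ZMod p, (if a = 0 then (0 : ℤ) else 1) = 1 - (if a = 0 then 1 else 0) := by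
      intro a
      split_ifs <;> norm_num
    rw [Finset.sum_congr rfl fun a _ => h3 a, Finset.sum_sub_distrib, Finset.sum_ite_eq']
    simp
  have h3 : ∑ a : ZMod p, (if ¬ IsSquare a then (2 : ℤ) else 0) =
      2 * ((Finset.univ.filter fun a : ZMod p => ¬ IsSquare a).card : ℤ) := by
    rw [← Finset.sum_filter, Finset.sum_const, nsmul_eq_mul]
    ring
  have h4 : Nat.card (NS p) = (Finset.univ.filter fun a : ZMod p => ¬ IsSquare a).card := by
    unfold NS
    rw [Nat.card_eq_fintype_card, Fintype.card_subtype]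
  have hp1 : 1 ≤ p := (Fact.out : p.Prime).one_le
  have h5 : (2 * Nat.card (NS p) : ℤ) = (p : ℤ) - 1 := by
    rw [h4, ← h3, h2]
  omega

theorem SM2_iter (p : ℕ) (d : ZMod p) (ρ : ZMod p → ZMod p) (h : ∀ u, ρ u = u - d) (n : ℕ) (u : ZMod p) :
    ρ^[n] u = u - n * d := by
  induction n with
  | zero => simp
  | succ n ih =>
    rw [Function.iterate_succ_apply', ih, h]
    push_cast
    ring

theorem NEG : NEG_stmt := by
  intro p _ a z hp hz
  have hρ : ∀ u : ZMod p, rho (fun u : ZMod p => -u) (af a z) u = u - 2 * z := by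
    intro u
    show -(a • (-(a⁻¹ • (u - z))) + z) = u - 2 * z
    rw [smul_neg, smul_inv_smul]
    ring
  have h2 : (2 : ZMod p) ≠ 0 := by
    intro h
    have h3 : ((2 : ℕ) : ZMod p) = 0 := by exact_mod_cast h
    rw [ZMod.natCast_eq_zero_iff] at h3
    have h4 := (Nat.prime_dvd_prime_iff_eq (Fact.out : p.Prime) Nat.prime_two).1 h3
    exact hp h4
  intro x y
  refine ⟨((x - y) * (2 * z)⁻¹).val, ?_⟩
  rw [SM2_iter p (2 * z) _ hρ, ZMod.natCast_zmod_val, mul_assoc,
    inv_mul_cancel₀ (mul_ne_zero h2 hz)]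
  ring

theorem WMU : WMU_stmt := by
  intro p k m hp hm
  have h1 := Nat.perm_primeFactorsList_mul (pow_ne_zero k hp.ne_zero) hm
  unfold WW
  rw [(h1.map _).prod_eq, List.map_append, List.prod_append, hp.primeFactorsList_pow,
    List.map_replicate, List.prod_replicate]

end Pool.Agent.PFS
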